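import Mathlib

/-!
# The bipartition polynomial of a graph is determined by the one of its complement

For disjoint sets `W`, `U` of vertices let `i(W, U)` be the number of edges between them. Then
`B(G; x, y, z) = ∑ x^|W| y^|U| (1 - y)^(n - |W| - |U|) (1 + z)^i(W, U)`, the sum over all pairs of
disjoint sets.  Hence `B` is equivalent to the polynomial `E(G; a, b, t) = ∑ a^|W| b^|U| t^i(W, U)`, and
for the complement `i(W, U)` is replaced by `|W| |U| - i(W, U)`.
-/

set_option autoImplicit false

namespace Pool.Agent.Results.MP_633bfc_co.Complement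

open Finset

open Classical in
/-- `∂W`: the edges of `G` with exactly one endpoint in `W`. -/
noncomputable def boundary {V : Type} [Fintype V] (G : SimpleGraph V) (W : Finset V) :
    Finset (Sym2 V) :=
  univ.filter fun e => e ∈ G.edgeSet ∧ ∃ a ∈ W, ∃ b, b ∉ W ∧ e = s(a, b)

open Classical in
/-- `N_(V,F)(W)`: the vertices outside `W` which are joined to a vertex of `W` by an edge of `F`. -/
noncomputable def nbrs {V : Type} [Fintype V] (F : Finset (Sym2 V)) (W : Finset V) : Finset V :=
  univ.filter fun v => v ∉ W ∧ ∃ w ∈ W, s(w, v) ∈ F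

/-- The bipartition polynomial `B(G; x, y, z)`, with `x = X 0`, `y = X 1`, `z = X 2`. -/
noncomputable def bipartitionPoly {V : Type} [Fintype V] (G : SimpleGraph V) :
    MvPolynomial (Fin 3) ℤ :=
  ∑ W : Finset V, MvPolynomial.X 0 ^ W.card *
    ∑ F ∈ (boundary G W).powerset,
      MvPolynomial.X 1 ^ (nbrs F W).card * MvPolynomial.X 2 ^ F.card

section
variable {V : Type} [Fintype V] [DecidableEq V] (G : SimpleGraph V)

/-- The number of edges between `W` and `U`. -/
noncomputable def num (W U : Finset V) : ℕ :=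
  {p : V × V | p.1 ∈ W ∧ p.2 ∈ U ∧ G.Adj p.1 p.2}.ncard

open Classical in
/-- The edges between the disjoint sets `W` and `U`. -/
noncomputable def between (W U : Finset V) : Finset (Sym2 V) :=
  univ.filter fun e => e ∈ G.edgeSet ∧ ∃ a ∈ W, ∃ b ∈ U, e = s(a, b)

lemma between_card {W U : Finset V} (h : Disjoint W U) : (between G W U).card = num G W U := by
  unfold num
  have h1 : (between G W U : Set (Sym2 V)) =
      (fun p : V × V => s(p.1, p.2)) '' {p : V × V | p.1 ∈ W ∧ p.2 ∈ U ∧ G.Adj p.1 p.2} := by
    ext e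
    simp only [between, coe_filter, mem_univ, true_and, Set.mem_image, Prod.exists]
    constructor
    · rintro ⟨he, a, ha, b, hb, rfl⟩
      exact ⟨a, b, ⟨ha, hb, he⟩, rfl⟩
    · rintro ⟨a, b, ⟨ha, hb, he⟩, rfl⟩
      exact ⟨he, a, ha, b, hb, rfl⟩
  rw [← Set.ncard_coe_finset, h1, Set.ncard_image_of_injOn]
  rintro ⟨a, b⟩ ⟨ha, hb, -⟩ ⟨c, d⟩ ⟨hc, hd, -⟩ heq
  rcases Sym2.eq_iff.1 heq with ⟨h1, h2⟩ | ⟨h1, h2⟩
  · exact Prod.ext h1 h2
  · exfalso
    simp only at ha hb hc hd h1 h2
    exact Finset.disjoint_left.1 h ha (h1 ▸ hd)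

lemma num_compl {W U : Finset V} (h : Disjoint W U) :
    num G W U + num Gᶜ W U = W.card * U.card := by
  unfold num
  rw [← Set.ncard_union_eq]
  · rw [← Finset.card_product, ← Set.ncard_coe_finset]
    congr 1
    ext p
    simp only [Set.mem_union, coe_product, Set.mem_prod, mem_coe]
    constructor
    · rintro (⟨h1, h2, -⟩ | ⟨h1, h2, -⟩)
      · exact ⟨h1, h2⟩
      · exact ⟨h1, h2⟩
    · rintro ⟨h1, h2⟩
      by_cases h3 : G.Adj p.1 p.2
      · exact Or.inl ⟨h1, h2, h3⟩
      · refine Or.inr ⟨h1, h2, ?_⟩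
        rw [SimpleGraph.compl_adj]
        exact ⟨fun heq => Finset.disjoint_left.1 h h1 (heq ▸ h2), h3⟩
  · rw [Set.disjoint_left]
    rintro p ⟨-, -, h1⟩ ⟨-, -, h2⟩
    rw [SimpleGraph.compl_adj] at h2
    exact h2.2 h1

/-- A sum over the sets between `N` and `S`. -/
lemma sum_supersets (S N : Finset V) (hN : N ⊆ S) (y : ℝ) :
    y ^ N.card = ∑ U ∈ S.powerset, if N ⊆ U then y ^ U.card * (1 - y) ^ (S.card - U.card) else 0 := by
  classical
  have h := Finset.prod_add (fun _ => y) (fun v => if v ∈ N then 0 else 1 - y) S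
  have h1 : ∏ v ∈ S, (y + if v ∈ N then 0 else 1 - y) = y ^ N.card := by
    rw [← Finset.prod_sdiff hN]
    have h2 : ∏ v ∈ S \ N, (y + if v ∈ N then 0 else 1 - y) = 1 := by
      apply Finset.prod_eq_one
      intro v hv
      rw [if_neg (Finset.mem_sdiff.1 hv).2]
      ring
    have h3 : ∏ v ∈ N, (y + if v ∈ N then 0 else 1 - y) = y ^ N.card := by
      rw [← Finset.prod_const]
      apply Finset.prod_congr rfl
      intro v hv
      rw [if_pos hv]
      ring
    rw [h2, h3, one_mul]
  rw [h1] at h
  rw [h]
  apply Finset.sum_congr rfl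
  intro U hU
  rw [Finset.mem_powerset] at hU
  rw [Finset.prod_const]
  split_ifs with hNU
  · congr 1
    rw [← Finset.card_sdiff_of_subset hU, ← Finset.prod_const]
    apply Finset.prod_congr rfl
    intro v hv
    rw [if_neg]
    exact fun h => (Finset.mem_sdiff.1 hv).2 (hNU h)
  · obtain ⟨v, hv, hv'⟩ := Finset.not_subset.1 hNU
    rw [Finset.prod_eq_zero (i := v) (Finset.mem_sdiff.2 ⟨hN hv, hv'⟩) (by rw [if_pos hv]), mul_zero]

lemma inner (W : Finset V) (y z : ℝ) :
    (∑ F ∈ (boundary G W).powerset, y ^ (nbrs F W).card * z ^ F.card) =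
      ∑ U ∈ (Wᶜ : Finset V).powerset,
        y ^ U.card * (1 - y) ^ ((Wᶜ : Finset V).card - U.card) * (1 + z) ^ num G W U := by
  classical
  have h1 : ∀ F ∈ (boundary G W).powerset, y ^ (nbrs F W).card * z ^ F.card =
      ∑ U ∈ (Wᶜ : Finset V).powerset, if nbrs F W ⊆ U then
        y ^ U.card * (1 - y) ^ ((Wᶜ : Finset V).card - U.card) * z ^ F.card else 0 := by
    intro F _
    have hN : nbrs F W ⊆ (Wᶜ : Finset V) := by
      intro v hv
      simp only [nbrs, mem_filter, mem_univ, true_and] at hv
      exact mem_compl.2 hv.1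
    rw [sum_supersets _ _ hN, Finset.sum_mul]
    apply Finset.sum_congr rfl
    intro U _
    split_ifs <;> simp
  rw [Finset.sum_congr rfl h1, Finset.sum_comm]
  apply Finset.sum_congr rfl
  intro U hU
  rw [Finset.mem_powerset] at hU
  have hdis : Disjoint W U := by
    rw [Finset.disjoint_left]
    intro v hv hv'
    exact (mem_compl.1 (hU hv')) hv
  rw [← Finset.sum_filter]
  have h2 : (boundary G W).powerset.filter (fun F => nbrs F W ⊆ U) = (between G W U).powerset := by
    ext F
    simp only [mem_filter, mem_powerset]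
    constructor
    · rintro ⟨hF, hN⟩ e he
      have := hF he
      simp only [boundary, mem_filter, mem_univ, true_and] at this
      obtain ⟨he', a, ha, b, hb, rfl⟩ := this
      simp only [between, mem_filter, mem_univ, true_and]
      refine ⟨he', a, ha, b, hN ?_, rfl⟩
      simp only [nbrs, mem_filter, mem_univ, true_and]
      exact ⟨hb, a, ha, he⟩
    · intro hF
      constructor
      · intro e he
        have := hF he
        simp only [between, mem_filter, mem_univ, true_and] at this
        obtain ⟨he', a, ha, b, hb, rfl⟩ := this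
        simp only [boundary, mem_filter, mem_univ, true_and]
        exact ⟨he', a, ha, b, mem_compl.1 (hU hb), rfl⟩
      · intro v hv
        simp only [nbrs, mem_filter, mem_univ, true_and] at hv
        obtain ⟨hv, w, hw, he⟩ := hv
        have := hF he
        simp only [between, mem_filter, mem_univ, true_and] at this
        obtain ⟨-, a, ha, b, hb, heq⟩ := this
        rcases Sym2.eq_iff.1 heq with ⟨-, h⟩ | ⟨-, h⟩
        · exact h ▸ hb
        · exact absurd (h ▸ ha) hv
  rw [h2, ← Finset.mul_sum]
  congr 1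
  have h3 := Finset.sum_pow_mul_eq_add_pow z 1 (between G W U)
  simp only [one_pow, mul_one] at h3
  rw [h3, between_card G hdis, add_comm]

/-- The value of the bipartition polynomial at a point. -/
lemma eval_B (x y z : ℝ) : MvPolynomial.aeval ![x, y, z] (bipartitionPoly G) =
    ∑ W : Finset V, ∑ U ∈ (Wᶜ : Finset V).powerset, x ^ W.card *
        (y ^ U.card * (1 - y) ^ ((Wᶜ : Finset V).card - U.card) * (1 + z) ^ num G W U) := by
  unfold bipartitionPoly
  simp only [map_sum, map_mul, map_pow, MvPolynomial.aeval_X]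
  apply Finset.sum_congr rfl
  intro W _
  rw [← Finset.mul_sum, ← inner]
  simp

/-- The value of `E` at a point. -/
noncomputable def E (a b t : ℝ) : ℝ :=
  ∑ W : Finset V, ∑ U ∈ (Wᶜ : Finset V).powerset, a ^ W.card * b ^ U.card * t ^ num G W U

lemma E_eq (a b t : ℝ) (hb : 0 < b) : E G a b t = (1 + b) ^ Fintype.card V *
    MvPolynomial.aeval ![a / (1 + b), b / (1 + b), t - 1] (bipartitionPoly G) := by
  rw [eval_B, Finset.mul_sum]
  unfold E
  apply Finset.sum_congr rfl
  intro W _
  rw [Finset.mul_sum]
  apply Finset.sum_congr rfl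
  intro U hU
  have h1 : 1 + b ≠ 0 := by positivity
  have h2 : 1 - b / (1 + b) = 1 / (1 + b) := by field_simp; ring
  have h3 := Finset.card_le_card (Finset.mem_powerset.1 hU)
  have h4 : Fintype.card V = W.card + (U.card + ((Wᶜ : Finset V).card - U.card)) := by
    have := Finset.card_add_card_compl W
    omega
  rw [h2, h4, pow_add, pow_add, div_pow, div_pow, div_pow, one_pow]
  have h5 : 1 + (t - 1) = t := by ring
  rw [h5]
  field_simp

lemma B_eq (x y z : ℝ) (hy : y < 1) : MvPolynomial.aeval ![x, y, z] (bipartitionPoly G) =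
    (1 - y) ^ Fintype.card V * E G (x / (1 - y)) (y / (1 - y)) (1 + z) := by
  rw [eval_B]
  unfold E
  rw [Finset.mul_sum]
  apply Finset.sum_congr rfl
  intro W _
  rw [Finset.mul_sum]
  apply Finset.sum_congr rfl
  intro U hU
  have h1 : 1 - y ≠ 0 := by linarith
  have h3 := Finset.card_le_card (Finset.mem_powerset.1 hU)
  have h4 : Fintype.card V = W.card + (U.card + ((Wᶜ : Finset V).card - U.card)) := by
    have := Finset.card_add_card_compl W
    omega
  rw [h4, pow_add, pow_add, div_pow, div_pow]
  field_simp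

/-- `E` as a polynomial in `a` and `b`. -/
noncomputable def EP (t : ℝ) : MvPolynomial (Fin 2) ℝ :=
  ∑ W : Finset V, ∑ U ∈ (Wᶜ : Finset V).powerset,
    MvPolynomial.monomial (Finsupp.single 0 W.card + Finsupp.single 1 U.card) (t ^ num G W U)

lemma eval_EP (t : ℝ) (v : Fin 2 → ℝ) : MvPolynomial.eval v (EP G t) = E G (v 0) (v 1) t := by
  unfold EP E
  simp only [map_sum, MvPolynomial.eval_monomial]
  apply Finset.sum_congr rfl
  intro W _
  apply Finset.sum_congr rfl
  intro U _
  rw [Finsupp.prod_add_index' (by simp) (by intros; rw [pow_add]), Finsupp.prod_single_index (by simp),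
    Finsupp.prod_single_index (by simp)]
  ring

/-- The linear form which extracts the complementary sum. -/
lemma compl_E (a b t : ℝ) (ht : 0 < t) : E Gᶜ a b t =
    (MvPolynomial.basisMonomials (Fin 2) ℝ).constr ℝ
      (fun m => a ^ m 0 * b ^ m 1 * t ^ (m 0 * m 1)) (EP G t⁻¹) := by
  unfold EP E
  simp only [map_sum]
  apply Finset.sum_congr rfl
  intro W _
  apply Finset.sum_congr rfl
  intro U hU
  have hdis : Disjoint W U := by
    rw [Finset.disjoint_left]
    intro v hv hv'
    exact (mem_compl.1 (Finset.mem_powerset.1 hU hv')) hv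
  have h1 : MvPolynomial.monomial (Finsupp.single (0 : Fin 2) W.card + Finsupp.single 1 U.card)
      (t⁻¹ ^ num G W U) = t⁻¹ ^ num G W U • (MvPolynomial.basisMonomials (Fin 2) ℝ
        (Finsupp.single (0 : Fin 2) W.card + Finsupp.single 1 U.card)) := by
    rw [MvPolynomial.coe_basisMonomials, MvPolynomial.smul_monomial, smul_eq_mul, mul_one]
  rw [h1, map_smul, Module.Basis.constr_basis]
  have h2 := num_compl G hdis
  have h3 : (Finsupp.single (0 : Fin 2) W.card + Finsupp.single 1 U.card : Fin 2 →₀ ℕ) 0
      = W.card := by simp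
  have h4 : (Finsupp.single (0 : Fin 2) W.card + Finsupp.single 1 U.card : Fin 2 →₀ ℕ) 1
      = U.card := by simp
  rw [h3, h4, ← h2, pow_add, smul_eq_mul, inv_pow]
  have h5 : t ^ num G W U ≠ 0 := by positivity
  field_simp

end

lemma key {V V' : Type} [Fintype V] [Fintype V'] (G : SimpleGraph V) (H : SimpleGraph V')
    (h : bipartitionPoly G = bipartitionPoly H) : bipartitionPoly Gᶜ = bipartitionPoly Hᶜ := by
  classical
  -- the number of vertices
  have hn : Fintype.card V = Fintype.card V' := by
    have h1 : ∀ {V : Type} [Fintype V] (G : SimpleGraph V),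
        MvPolynomial.aeval ![(1 : ℝ), 0, 0] (bipartitionPoly G) = 2 ^ Fintype.card V := by
      intro V _ G
      rw [eval_B]
      have : ∀ W : Finset V, (∑ U ∈ (Wᶜ : Finset V).powerset, (1 : ℝ) ^ W.card *
          (0 ^ U.card * (1 - 0) ^ ((Wᶜ : Finset V).card - U.card) * (1 + 0) ^ num G W U)) = 1 := by
        intro W
        rw [Finset.sum_eq_single ∅]
        · simp
        · intro U _ hU
          rw [zero_pow (by simpa using hU)]
          simp
        · intro h
          simp at h
      rw [Finset.sum_congr rfl (fun W _ => this W)]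
      simp
    have h2 := h1 G
    rw [h, h1 H] at h2
    have h3 : (2 : ℝ) ^ Fintype.card V' = 2 ^ Fintype.card V := h2
    exact (pow_right_injective₀ (by norm_num) (by norm_num) h3).symm
  have hEP : ∀ t, EP G t = EP H t := by
    intro t
    apply MvPolynomial.funext_set ![Set.univ, Set.Ioi 0]
    · intro i
      fin_cases i
      · exact Set.infinite_univ
      · exact Set.Ioi_infinite 0
    · intro v hv
      have hv1 : 0 < v 1 := hv 1 trivial
      rw [eval_EP, eval_EP, E_eq G _ _ _ hv1, E_eq H _ _ _ hv1, h, hn]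
  have hE : ∀ a b t : ℝ, 0 < t → E Gᶜ a b t = E Hᶜ a b t := by
    intro a b t ht
    rw [compl_E G a b t ht, compl_E H a b t ht, hEP]
  apply MvPolynomial.map_injective (Int.castRingHom ℝ) (RingHom.injective_int _)
  apply MvPolynomial.funext_set ![Set.univ, Set.Iio 1, Set.Ioi (-1)]
  · intro i
    fin_cases i
    · exact Set.infinite_univ
    · exact Set.Iio_infinite 1
    · exact Set.Ioi_infinite (-1)
  · intro v hv
    have hv1 : v 1 < 1 := hv 1 trivial
    have hv2 : -1 < v 2 := hv 2 trivial
    have hv' : v = ![v 0, v 1, v 2] := by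
      ext i; fin_cases i <;> rfl
    rw [MvPolynomial.eval_map, MvPolynomial.eval_map, hv']
    have h1 := B_eq Gᶜ (v 0) (v 1) (v 2) hv1
    have h2 := B_eq Hᶜ (v 0) (v 1) (v 2) hv1
    rw [hE _ _ _ (by linarith), hn, ← h2] at h1
    exact h1

/-- The bipartition polynomial of the complement determines the bipartition polynomial of the graph:
if the complements of `G` and `H` have the same bipartition polynomial, then so do `G` and `H`. -/
theorem result {V V' : Type} [Fintype V] [Fintype V'] (G : SimpleGraph V) (H : SimpleGraph V')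
    (h : bipartitionPoly Gᶜ = bipartitionPoly Hᶜ) : bipartitionPoly G = bipartitionPoly H := by
  have := key Gᶜ Hᶜ h
  rwa [compl_compl, compl_compl] at this

end Pool.Agent.Results.MP_633bfc_co.Complement
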